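import Mathlib

/-!
# A closed cone that is weakly separated from the origin but has no bounded base

Question of Gong (1995): a normed space `X` and a closed pointed convex cone `C` in `X` such that
`0` is not in the weak closure of `C \ ε B_X` for every `ε ∈ (0,1)`, while `C` has no bounded base.
The space is the (incomplete) space of polynomial functions on `[0,1]` with the supremum norm and
the cone is `{p : ‖p - p(1) √x‖ ≤ 2 p(0)}`.
-/

set_option autoImplicit false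

open Topology Set

namespace Pool.Agent.Results.MP_388f8c_an.ClosedConeNoBoundedBase

/-- `C` is a (convex, pointed) cone of the real normed space `X`. -/
structure IsPointedCone {X : Type} [NormedAddCommGroup X] [NormedSpace ℝ X] (C : Set X) :
    Prop where
  nonempty : C.Nonempty
  add_mem : ∀ x ∈ C, ∀ y ∈ C, x + y ∈ C
  smul_mem : ∀ r : ℝ, 0 ≤ r → ∀ x ∈ C, r • x ∈ C
  pointed : C ∩ (-C) = {0}

/-- Condition `(∗)`: for every `ε ∈ (0,1)`, `0` is not in the weak closure of `C \ ε B_X`. -/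
def WeaklySeparated {X : Type} [NormedAddCommGroup X] [NormedSpace ℝ X] (C : Set X) : Prop :=
  ∀ ε : ℝ, 0 < ε → ε < 1 →
    (0 : WeakSpace ℝ X) ∉ closure (toWeakSpace ℝ X '' (C \ Metric.closedBall (0 : X) ε))

/-- `B` is a base of the cone `C`. -/
def IsBase {X : Type} [NormedAddCommGroup X] [NormedSpace ℝ X] (C B : Set X) : Prop :=
  B.Nonempty ∧ Convex ℝ B ∧ B ⊆ C ∧ (0 : X) ∉ closure B ∧
    ∀ c ∈ C, c ≠ 0 → ∃! p : ℝ × X, 0 < p.1 ∧ p.2 ∈ B ∧ c = p.1 • p.2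

/-- `C` has a norm-bounded base. -/
def HasBoundedBase {X : Type} [NormedAddCommGroup X] [NormedSpace ℝ X] (C : Set X) : Prop :=
  ∃ B : Set X, IsBase C B ∧ Bornology.IsBounded B

/-- The unit interval. -/
abbrev I01 : Set ℝ := Set.Icc (0 : ℝ) 1

/-- The polynomial functions on `[0,1]`, as a submodule of the space of continuous functions. -/
noncomputable abbrev PolyFun : Submodule ℝ C(I01, ℝ) :=
  Subalgebra.toSubmodule (polynomialFunctions I01)

/-- The point `1` of `[0,1]`. -/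
def pt1 : I01 := ⟨1, by constructor <;> norm_num⟩

/-- The point `0` of `[0,1]`. -/
def pt0 : I01 := ⟨0, by constructor <;> norm_num⟩

/-- The square root as a continuous function on `[0,1]`. -/
noncomputable def sq : C(I01, ℝ) := ⟨fun x => Real.sqrt x, by fun_prop⟩

/-- The cone. -/
def Cn : Set PolyFun := {p | ‖(p : C(I01, ℝ)) - (p : C(I01, ℝ)) pt1 • sq‖ ≤ 2 * (p : C(I01, ℝ)) pt0}

theorem sq_not_mem : sq ∉ PolyFun := by
  intro h
  have h' : sq ∈ polynomialFunctions I01 := h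
  obtain ⟨q, hq⟩ := (polynomialFunctions_coe I01 ▸ (SetLike.mem_coe.mpr h') : sq ∈ Set.range (Polynomial.toContinuousMapOnAlgHom I01))
  have key : ∀ x : ℝ, x ∈ Set.Icc (0 : ℝ) 1 → (q.comp (Polynomial.X ^ 2)).eval x = x := by
    intro x hx
    have hx2 : x ^ 2 ∈ I01 := ⟨by positivity, by nlinarith [hx.1, hx.2]⟩
    have h1 := congrArg (fun f : C(I01, ℝ) => f ⟨x ^ 2, hx2⟩) hq
    simp only [Polynomial.toContinuousMapOnAlgHom_apply, Polynomial.toContinuousMapOn_apply,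
      Polynomial.toContinuousMap_apply] at h1
    rw [Polynomial.eval_comp]
    simp only [Polynomial.eval_pow, Polynomial.eval_X]
    rw [h1]
    change Real.sqrt (x ^ 2) = x
    exact Real.sqrt_sq hx.1
  have hpoly : q.comp (Polynomial.X ^ 2) = Polynomial.X := by
    apply Polynomial.eq_of_infinite_eval_eq
    apply Set.Infinite.mono (s := Set.Icc (0 : ℝ) 1)
    · intro x hx
      change (q.comp (Polynomial.X ^ 2)).eval x = Polynomial.eval x Polynomial.X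
      rw [Polynomial.eval_X]
      exact key x hx
    · exact Set.Icc_infinite (by norm_num)
  have hdeg := congrArg Polynomial.natDegree hpoly
  rw [Polynomial.natDegree_comp, Polynomial.natDegree_X] at hdeg
  simp only [Polynomial.natDegree_pow, Polynomial.natDegree_X, mul_one] at hdeg
  omega

theorem sq_pt1 : sq pt1 = 1 := by
  change Real.sqrt 1 = 1
  simp

theorem sq_pt0 : sq pt0 = 0 := by
  change Real.sqrt 0 = 0
  simp

theorem norm_sq : ‖sq‖ ≤ 1 := by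
  rw [ContinuousMap.norm_le _ (by norm_num)]
  intro x
  change ‖Real.sqrt x‖ ≤ 1
  rw [Real.norm_eq_abs, abs_of_nonneg (Real.sqrt_nonneg _)]
  exact Real.sqrt_le_one.mpr x.2.2

theorem norm_one_sub_sq : ‖(1 : C(I01, ℝ)) - sq‖ ≤ 1 := by
  rw [ContinuousMap.norm_le _ (by norm_num)]
  intro x
  change ‖1 - Real.sqrt x‖ ≤ 1
  rw [Real.norm_eq_abs, abs_le]
  have h0 := Real.sqrt_nonneg (x : ℝ)
  have h1 : Real.sqrt x ≤ 1 := Real.sqrt_le_one.mpr x.2.2
  constructor <;> linarith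

/-- Weierstrass. -/
theorem exists_poly (τ : ℝ) (hτ : 0 < τ) : ∃ p : PolyFun, ‖(p : C(I01, ℝ)) - sq‖ < τ := by
  have h := polynomialFunctions_closure_eq_top 0 1
  have h1 : sq ∈ (polynomialFunctions (Set.Icc (0 : ℝ) 1)).topologicalClosure := by
    rw [h]; trivial
  have h2 : sq ∈ closure ((polynomialFunctions (Set.Icc (0 : ℝ) 1) : Set C(I01, ℝ))) := h1
  rw [Metric.mem_closure_iff] at h2
  obtain ⟨p, hp, hd⟩ := h2 τ hτ
  refine ⟨⟨p, hp⟩, ?_⟩
  rw [dist_comm, dist_eq_norm] at hd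
  exact hd

/-- the constant function `1` as an element of `PolyFun` -/
noncomputable def e1 : PolyFun := ⟨1, one_mem (polynomialFunctions I01)⟩

theorem abs_apply_le (f : C(I01, ℝ)) (x : I01) : |f x| ≤ ‖f‖ := by
  rw [← Real.norm_eq_abs]; exact f.norm_coe_le_norm x

/-- the approximating members of the cone: `s` is a sign. -/
theorem approx_mem (τ s : ℝ) (hs : s = 1 ∨ s = -1) (p : PolyFun)
    (hp : ‖(p : C(I01, ℝ)) - sq‖ ≤ τ) : s • p + (4 * τ) • e1 ∈ Cn := by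
  have hτ : 0 ≤ τ := (norm_nonneg _).trans hp
  have habs : |s| = 1 := by rcases hs with rfl | rfl <;> simp
  have hp1 : |(p : C(I01, ℝ)) pt1 - 1| ≤ τ := by
    have := abs_apply_le ((p : C(I01, ℝ)) - sq) pt1
    rw [ContinuousMap.sub_apply, sq_pt1] at this
    exact this.trans hp
  have hp0 : |(p : C(I01, ℝ)) pt0| ≤ τ := by
    have := abs_apply_le ((p : C(I01, ℝ)) - sq) pt0
    rw [ContinuousMap.sub_apply, sq_pt0, sub_zero] at this
    exact this.trans hp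
  change ‖(s • (p : C(I01, ℝ)) + (4 * τ) • (1 : C(I01, ℝ))) -
      (s • (p : C(I01, ℝ)) + (4 * τ) • (1 : C(I01, ℝ))) pt1 • sq‖ ≤
      2 * (s • (p : C(I01, ℝ)) + (4 * τ) • (1 : C(I01, ℝ))) pt0
  have e1' : (s • (p : C(I01, ℝ)) + (4 * τ) • (1 : C(I01, ℝ))) pt1 =
      s * (p : C(I01, ℝ)) pt1 + 4 * τ := by
    simp
  have e2' : (s • (p : C(I01, ℝ)) + (4 * τ) • (1 : C(I01, ℝ))) pt0 =
      s * (p : C(I01, ℝ)) pt0 + 4 * τ := by
    simp
  rw [e1', e2']
  have e3 : (s • (p : C(I01, ℝ)) + (4 * τ) • (1 : C(I01, ℝ))) -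
      (s * (p : C(I01, ℝ)) pt1 + 4 * τ) • sq =
      s • ((p : C(I01, ℝ)) - sq) + (s * (1 - (p : C(I01, ℝ)) pt1)) • sq +
        (4 * τ) • ((1 : C(I01, ℝ)) - sq) := by
    module
  rw [e3]
  have b1 : ‖s • ((p : C(I01, ℝ)) - sq)‖ ≤ τ := by
    rw [norm_smul, Real.norm_eq_abs, habs, one_mul]; exact hp
  have b2 : ‖(s * (1 - (p : C(I01, ℝ)) pt1)) • sq‖ ≤ τ := by
    rw [norm_smul, Real.norm_eq_abs, abs_mul, habs, one_mul, abs_sub_comm]
    calc _ ≤ τ * 1 := mul_le_mul hp1 norm_sq (norm_nonneg _) hτ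
      _ = τ := mul_one _
  have b3 : ‖(4 * τ) • ((1 : C(I01, ℝ)) - sq)‖ ≤ 4 * τ := by
    rw [norm_smul, Real.norm_eq_abs, abs_of_nonneg (by positivity)]
    calc _ ≤ (4 * τ) * 1 := mul_le_mul_of_nonneg_left norm_one_sub_sq (by positivity)
      _ = 4 * τ := mul_one _
  have b4 : -τ ≤ s * (p : C(I01, ℝ)) pt0 := by
    have : |s * (p : C(I01, ℝ)) pt0| ≤ τ := by rw [abs_mul, habs, one_mul]; exact hp0
    exact (abs_le.mp this).1
  calc _ ≤ ‖s • ((p : C(I01, ℝ)) - sq)‖ + ‖(s * (1 - (p : C(I01, ℝ)) pt1)) • sq‖ +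
        ‖(4 * τ) • ((1 : C(I01, ℝ)) - sq)‖ := norm_add₃_le
    _ ≤ τ + τ + 4 * τ := by gcongr
    _ ≤ 2 * (s * (p : C(I01, ℝ)) pt0 + 4 * τ) := by linarith

theorem cone : IsPointedCone Cn where
  nonempty := ⟨0, by change ‖(0 : C(I01, ℝ)) - (0 : ℝ) • sq‖ ≤ 2 * (0 : ℝ); simp⟩
  add_mem := by
    intro x hx y hy
    change ‖((x : C(I01, ℝ)) + y) - ((x : C(I01, ℝ)) pt1 + (y : C(I01, ℝ)) pt1) • sq‖ ≤
      2 * ((x : C(I01, ℝ)) pt0 + (y : C(I01, ℝ)) pt0)
    have hx' : ‖(x : C(I01, ℝ)) - (x : C(I01, ℝ)) pt1 • sq‖ ≤ 2 * (x : C(I01, ℝ)) pt0 := hx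
    have hy' : ‖(y : C(I01, ℝ)) - (y : C(I01, ℝ)) pt1 • sq‖ ≤ 2 * (y : C(I01, ℝ)) pt0 := hy
    have e : ((x : C(I01, ℝ)) + y) - ((x : C(I01, ℝ)) pt1 + (y : C(I01, ℝ)) pt1) • sq =
      ((x : C(I01, ℝ)) - (x : C(I01, ℝ)) pt1 • sq) + ((y : C(I01, ℝ)) - (y : C(I01, ℝ)) pt1 • sq) := by
      module
    rw [e]
    exact (norm_add_le _ _).trans (by linarith)
  smul_mem := by
    intro r hr x hx
    have hx' : ‖(x : C(I01, ℝ)) - (x : C(I01, ℝ)) pt1 • sq‖ ≤ 2 * (x : C(I01, ℝ)) pt0 := hx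
    change ‖r • (x : C(I01, ℝ)) - (r * (x : C(I01, ℝ)) pt1) • sq‖ ≤ 2 * (r * (x : C(I01, ℝ)) pt0)
    have e : r • (x : C(I01, ℝ)) - (r * (x : C(I01, ℝ)) pt1) • sq =
      r • ((x : C(I01, ℝ)) - (x : C(I01, ℝ)) pt1 • sq) := by module
    rw [e, norm_smul, Real.norm_eq_abs, abs_of_nonneg hr]
    nlinarith
  pointed := by
    ext x
    constructor
    · rintro ⟨hx, hy⟩
      have hx' : ‖(x : C(I01, ℝ)) - (x : C(I01, ℝ)) pt1 • sq‖ ≤ 2 * (x : C(I01, ℝ)) pt0 := hx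
      have hy' : ‖-(x : C(I01, ℝ)) - (-((x : C(I01, ℝ)) pt1)) • sq‖ ≤
        2 * (-((x : C(I01, ℝ)) pt0)) := hy
      have h0 : ‖(x : C(I01, ℝ)) - (x : C(I01, ℝ)) pt1 • sq‖ ≤ 0 := by
        have := norm_nonneg (-(x : C(I01, ℝ)) - (-((x : C(I01, ℝ)) pt1)) • sq)
        linarith
      have h1 : (x : C(I01, ℝ)) = (x : C(I01, ℝ)) pt1 • sq := by
        rw [← sub_eq_zero]; exact norm_le_zero_iff.mp h0
      by_cases h2 : (x : C(I01, ℝ)) pt1 = 0
      · rw [h2, zero_smul] at h1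
        exact Subtype.ext h1
      · exfalso
        apply sq_not_mem
        have : sq = ((x : C(I01, ℝ)) pt1)⁻¹ • (x : C(I01, ℝ)) := by
          nth_rewrite 2 [h1]
          rw [smul_smul, inv_mul_cancel₀ h2, one_smul]
        rw [this]
        exact PolyFun.smul_mem _ x.2
    · rintro rfl
      constructor
      · change ‖(0 : C(I01, ℝ)) - (0 : ℝ) • sq‖ ≤ 2 * (0 : ℝ); simp
      · change ‖-(0 : C(I01, ℝ)) - (-(0 : ℝ)) • sq‖ ≤ 2 * (-(0 : ℝ)); simp

theorem cont_ev (x : I01) : Continuous (fun p : PolyFun => (p : C(I01, ℝ)) x) :=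
  (ContinuousMap.evalCLM ℝ x).continuous.comp continuous_subtype_val

theorem closed : IsClosed Cn := by
  have h1 : Continuous (fun p : PolyFun => ‖(p : C(I01, ℝ)) - (p : C(I01, ℝ)) pt1 • sq‖) :=
    (continuous_subtype_val.sub ((cont_ev pt1).smul continuous_const)).norm
  have h2 : Continuous (fun p : PolyFun => 2 * (p : C(I01, ℝ)) pt0) :=
    continuous_const.mul (cont_ev pt0)
  exact isClosed_le h1 h2

/-- evaluation at a point as a continuous functional on `PolyFun` -/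
noncomputable def ev (x : I01) : StrongDual ℝ PolyFun :=
  (ContinuousMap.evalCLM ℝ x).comp PolyFun.subtypeL

theorem ev_apply (x : I01) (p : PolyFun) : ev x p = (p : C(I01, ℝ)) x := rfl

theorem weakSep : WeaklySeparated Cn := by
  intro ε hε _ hmem
  have hcont : ∀ x : I01, Continuous (fun p : WeakSpace ℝ PolyFun => ev x ((toWeakSpace ℝ PolyFun).symm p)) := by
    intro x
    exact WeakBilin.eval_continuous (topDualPairing ℝ PolyFun).flip (ev x)
  have hcl : IsClosed {p : WeakSpace ℝ PolyFun | ε ≤ |ev pt1 ((toWeakSpace ℝ PolyFun).symm p)| +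
      2 * |ev pt0 ((toWeakSpace ℝ PolyFun).symm p)|} := by
    apply isClosed_le continuous_const
    exact (hcont pt1).abs.add (continuous_const.mul (hcont pt0).abs)
  have hsub : (toWeakSpace ℝ PolyFun '' (Cn \ Metric.closedBall (0 : PolyFun) ε)) ⊆
      {p : WeakSpace ℝ PolyFun | ε ≤ |ev pt1 ((toWeakSpace ℝ PolyFun).symm p)| +
      2 * |ev pt0 ((toWeakSpace ℝ PolyFun).symm p)|} := by
    rintro _ ⟨p, ⟨hp, hb⟩, rfl⟩
    change ε ≤ |(p : C(I01, ℝ)) pt1| + 2 * |(p : C(I01, ℝ)) pt0|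
    have hp' : ‖(p : C(I01, ℝ)) - (p : C(I01, ℝ)) pt1 • sq‖ ≤ 2 * (p : C(I01, ℝ)) pt0 := hp
    have hn : ε < ‖(p : C(I01, ℝ))‖ := by
      simp only [Metric.mem_closedBall, dist_zero_right, not_le] at hb
      exact hb
    have h1 : ‖(p : C(I01, ℝ))‖ ≤ ‖(p : C(I01, ℝ)) - (p : C(I01, ℝ)) pt1 • sq‖ +
        ‖(p : C(I01, ℝ)) pt1 • sq‖ := by
      have := norm_add_le ((p : C(I01, ℝ)) - (p : C(I01, ℝ)) pt1 • sq) ((p : C(I01, ℝ)) pt1 • sq)
      rwa [sub_add_cancel] at this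
    have h2 : ‖(p : C(I01, ℝ)) pt1 • sq‖ ≤ |(p : C(I01, ℝ)) pt1| := by
      rw [norm_smul, Real.norm_eq_abs]
      calc _ ≤ |(p : C(I01, ℝ)) pt1| * 1 := mul_le_mul_of_nonneg_left norm_sq (abs_nonneg _)
        _ = _ := mul_one _
    have h3 := le_abs_self ((p : C(I01, ℝ)) pt0)
    linarith
  have h0 := closure_minimal hsub hcl hmem
  change ε ≤ |ev pt1 ((toWeakSpace ℝ PolyFun).symm 0)| +
      2 * |ev pt0 ((toWeakSpace ℝ PolyFun).symm 0)| at h0
  simp only [map_zero, abs_zero, mul_zero, add_zero] at h0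
  linarith

theorem no_base_of_pairs {X : Type} [NormedAddCommGroup X] [NormedSpace ℝ X] (C : Set X)
    (hC : ∀ τ : ℝ, 0 < τ → ∃ a ∈ C, ∃ b ∈ C, 1 / 2 ≤ ‖a‖ ∧ ‖a + b‖ ≤ τ) :
    ¬ HasBoundedBase C := by
  rintro ⟨B, ⟨hne, hconv, hBC, h0, huniq⟩, hbd⟩
  obtain ⟨f, u, hf0, hfu⟩ := geometric_hahn_banach_point_closed hconv.closure isClosed_closure h0
  rw [map_zero] at hf0
  obtain ⟨R, hR⟩ := hbd.exists_norm_le
  have hR0 : 0 < max R 1 := lt_of_lt_of_le one_pos (le_max_right _ _)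
  have hδ : ∀ c ∈ C, u / max R 1 * ‖c‖ ≤ f c := by
    intro c hc
    by_cases hc0 : c = 0
    · rw [hc0]; simp
    obtain ⟨⟨l, b⟩, ⟨hl, hb, hcb⟩, -⟩ := huniq c hc hc0
    simp only at hl hb hcb
    have h1 : u < f b := hfu b (subset_closure hb)
    have h2 : ‖b‖ ≤ max R 1 := (hR b hb).trans (le_max_left _ _)
    rw [hcb, map_smul, norm_smul, Real.norm_eq_abs, abs_of_pos hl, smul_eq_mul]
    calc u / max R 1 * (l * ‖b‖) = l * (u * (‖b‖ / max R 1)) := by ring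
      _ ≤ l * (u * 1) := by
        apply mul_le_mul_of_nonneg_left _ hl.le
        apply mul_le_mul_of_nonneg_left _ hf0.le
        rw [div_le_one hR0]; exact h2
      _ ≤ l * f b := by
        apply mul_le_mul_of_nonneg_left _ hl.le
        linarith
  obtain ⟨δ, hδe⟩ : ∃ δ, δ = u / max R 1 := ⟨_, rfl⟩
  have hδ0 : 0 < δ := by rw [hδe]; positivity
  rw [← hδe] at hδ
  have hfn : 0 < ‖f‖ + 1 := by positivity
  obtain ⟨a, ha, b, hb, hna, hab⟩ := hC (δ / (4 * (‖f‖ + 1))) (by positivity)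
  have m1 := hδ a ha
  have m2 := hδ b hb
  have hsum : f a + f b ≤ ‖f‖ * (δ / (4 * (‖f‖ + 1))) := by
    rw [← map_add]
    calc f (a + b) ≤ ‖f (a + b)‖ := Real.le_norm_self _
      _ ≤ ‖f‖ * ‖a + b‖ := f.le_opNorm _
      _ ≤ _ := mul_le_mul_of_nonneg_left hab (norm_nonneg _)
  have h3 : ‖f‖ * (δ / (4 * (‖f‖ + 1))) ≤ δ / 4 := by
    rw [mul_div_assoc', div_le_div_iff₀ (by positivity) (by norm_num)]
    nlinarith [norm_nonneg f]
  have hnn : 0 ≤ δ * ‖b‖ := by positivity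
  have h4 : δ * (1 / 2) ≤ δ * ‖a‖ := mul_le_mul_of_nonneg_left hna hδ0.le
  linarith

theorem e1_norm : ‖e1‖ ≤ 1 := by
  change ‖(1 : C(I01, ℝ))‖ ≤ 1
  rw [ContinuousMap.norm_le _ (by norm_num)]
  intro x; simp

theorem no_base : ¬ HasBoundedBase Cn := by
  apply no_base_of_pairs
  intro τ0 hτ0
  obtain ⟨τ, hτe⟩ : ∃ τ, τ = min (1 / 10) (τ0 / 8) := ⟨_, rfl⟩
  have hτ0 : 0 < τ := by rw [hτe]; positivity
  have hτ1 : τ ≤ 1 / 10 := by rw [hτe]; exact min_le_left _ _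
  have hτ2 : τ ≤ τ0 / 8 := by rw [hτe]; exact min_le_right _ _
  obtain ⟨p, hp⟩ := exists_poly τ hτ0
  refine ⟨_, approx_mem τ 1 (Or.inl rfl) p hp.le, _, approx_mem τ (-1) (Or.inr rfl) p hp.le, ?_, ?_⟩
  · change (1 / 2 : ℝ) ≤ ‖(1 : ℝ) • (p : C(I01, ℝ)) + (4 * τ) • (1 : C(I01, ℝ))‖
    have h1 := abs_apply_le ((1 : ℝ) • (p : C(I01, ℝ)) + (4 * τ) • (1 : C(I01, ℝ))) pt1
    have h2 : ((1 : ℝ) • (p : C(I01, ℝ)) + (4 * τ) • (1 : C(I01, ℝ))) pt1 =
      (p : C(I01, ℝ)) pt1 + 4 * τ := by simp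
    rw [h2] at h1
    have h3 : |(p : C(I01, ℝ)) pt1 - 1| ≤ τ := by
      have := abs_apply_le ((p : C(I01, ℝ)) - sq) pt1
      rw [ContinuousMap.sub_apply, sq_pt1] at this
      exact this.trans hp.le
    have h4 := (abs_le.mp h3).1
    have h5 := le_abs_self ((p : C(I01, ℝ)) pt1 + 4 * τ)
    linarith
  · change ‖((1 : ℝ) • (p : C(I01, ℝ)) + (4 * τ) • (1 : C(I01, ℝ))) +
      ((-1 : ℝ) • (p : C(I01, ℝ)) + (4 * τ) • (1 : C(I01, ℝ)))‖ ≤ τ0
    have : ((1 : ℝ) • (p : C(I01, ℝ)) + (4 * τ) • (1 : C(I01, ℝ))) +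
      ((-1 : ℝ) • (p : C(I01, ℝ)) + (4 * τ) • (1 : C(I01, ℝ))) = (8 * τ) • (1 : C(I01, ℝ)) := by
      module
    rw [this, norm_smul, Real.norm_eq_abs, abs_of_pos (by positivity)]
    have := e1_norm
    change ‖(1 : C(I01, ℝ))‖ ≤ 1 at this
    calc 8 * τ * ‖(1 : C(I01, ℝ))‖ ≤ 8 * τ * 1 := mul_le_mul_of_nonneg_left this (by positivity)
      _ ≤ τ0 := by linarith

/-- **Gong's question.** There are a (real, incomplete) normed space `X` and a closed pointed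
convex cone `C ≠ {0}` of `X` such that for every `ε ∈ (0,1)` the origin is not in the weak closure
of `C \ ε B_X`, but `C` has no bounded base. -/
theorem result :
    ∃ (X : Type) (_ : NormedAddCommGroup X) (_ : NormedSpace ℝ X) (C : Set X),
      IsPointedCone C ∧ C ≠ {0} ∧ IsClosed C ∧ WeaklySeparated C ∧ ¬ HasBoundedBase C := by
  refine ⟨PolyFun, inferInstance, inferInstance, Cn, cone, ?_, closed, weakSep, no_base⟩
  intro h
  obtain ⟨p, hp⟩ := exists_poly (1 / 10) (by norm_num)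
  have h1 := approx_mem (1 / 10) 1 (Or.inl rfl) p hp.le
  rw [h] at h1
  have h2 : ((1 : ℝ) • (p : C(I01, ℝ)) + (4 * (1 / 10 : ℝ)) • (1 : C(I01, ℝ))) = 0 :=
    congrArg (Subtype.val) (h1 : (1 : ℝ) • p + (4 * (1 / 10 : ℝ)) • e1 = 0)
  have h3 := congrArg (fun g : C(I01, ℝ) => g pt1) h2
  have h4 : |(p : C(I01, ℝ)) pt1 - 1| ≤ 1 / 10 := by
    have := abs_apply_le ((p : C(I01, ℝ)) - sq) pt1
    rw [ContinuousMap.sub_apply, sq_pt1] at this
    exact this.trans hp.le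
  have h5 := (abs_le.mp h4).1
  simp at h3
  linarith

end Pool.Agent.Results.MP_388f8c_an.ClosedConeNoBoundedBase
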